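import Pool.Agent.Q182.AXI.T1P
import Pool.Agent.D0H33.AXF.Defs

/-!
Project AXF (helper33), module A (helper65): the stretching term, without smallness of the swirl.
-/

set_option autoImplicit false

open MeasureTheory Set Metric Filter Topology
open scoped ContDiff
open H459R3.NS Pool.Agent.W268.NS Pool.Agent.Q67.VD

namespace Pool.Agent.D0H65.AXF

open Pool.Agent.Q85.CC Pool.Agent.Q85.CL Pool.Agent.TH305.AX Pool.Agent.Q67.AXI
open Pool.Agent.D0H33.AXF
open Pool.Agent.W583.MD (sm_pd pd_mul')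
open Pool.Agent.Q149.AXI (sm_RR RR_mul pd_com pd2_RR pd_zero_of_max pd_off RR_sq sm_gr2 cs_pd
  cs_gr2 gr2_nonneg Cy_closed Cy_bdd ld_of_pd line_zero sg_cont)
open Pool.Agent.Q182.AXI.T1P (int_pd int_RR pt_main hs2_nonneg)

/-- Cauchy-Schwarz for nonnegative functions. -/
lemma cs_real {f g : V → ℝ} (hf : ∀ x, 0 ≤ f x) (hg : ∀ x, 0 ≤ g x)
    (mf : AEStronglyMeasurable f volume) (mg : AEStronglyMeasurable g volume)
    (if2 : Integrable (fun x => f x ^ 2)) (ig2 : Integrable (fun x => g x ^ 2)) :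
    (∫ x, f x * g x) ^ 2 ≤ (∫ x, f x ^ 2) * ∫ x, g x ^ 2 := by
  have lf : MemLp f 2 volume := (memLp_two_iff_integrable_sq mf).2 if2
  have lg : MemLp g 2 volume := (memLp_two_iff_integrable_sq mg).2 ig2
  have e2 : ENNReal.ofReal 2 = 2 := by norm_num
  have h := integral_mul_le_Lp_mul_Lq_of_nonneg (μ := (volume : Measure V)) (p := 2) (q := 2)
    Real.HolderConjugate.two_two (Eventually.of_forall hf) (Eventually.of_forall hg)
    (by rw [e2]; exact lf) (by rw [e2]; exact lg)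
  have n1 : 0 ≤ ∫ x, f x * g x := integral_nonneg fun x => mul_nonneg (hf x) (hg x)
  have n2 : 0 ≤ ∫ x, f x ^ 2 := integral_nonneg fun x => sq_nonneg _
  have n3 : 0 ≤ ∫ x, g x ^ 2 := integral_nonneg fun x => sq_nonneg _
  simp only [Real.rpow_two] at h
  rw [← Real.sqrt_eq_rpow, ← Real.sqrt_eq_rpow] at h
  calc (∫ x, f x * g x) ^ 2 ≤ (√(∫ x, f x ^ 2) * √(∫ x, g x ^ 2)) ^ 2 := pow_le_pow_left₀ n1 h 2
    _ = _ := by rw [mul_pow, Real.sq_sqrt n2, Real.sq_sqrt n3]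

/-- Young's inequality for the eighth power. -/
lemma young8 {y a b D e : ℝ} (ha : 0 ≤ a) (hb : 0 ≤ b) (hD : 0 ≤ D) (he : 0 < e)
    (h : y ^ 8 ≤ D * a * b ^ 7) : y ≤ e * b + D / (8 * e ^ 7) * a := by
  obtain ⟨x, hx⟩ : ∃ x : ℝ, x = e * b := ⟨_, rfl⟩
  obtain ⟨z, hz⟩ : ∃ z : ℝ, z = D / (8 * e ^ 7) * a := ⟨_, rfl⟩
  have hx0 : 0 ≤ x := by rw [hx]; positivity
  have hz0 : 0 ≤ z := by rw [hz]; positivity
  rw [← hx, ← hz]
  have e1 : 8 * x ^ 7 * z = D * a * b ^ 7 := by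
    rw [hx, hz]
    field_simp
  have e2 : 8 * x ^ 7 * z ≤ (x + z) ^ 8 := by
    have e3 : (x + z) ^ 8 = 8 * x ^ 7 * z + (x ^ 8 + 28 * x ^ 6 * z ^ 2 + 56 * x ^ 5 * z ^ 3
        + 70 * x ^ 4 * z ^ 4 + 56 * x ^ 3 * z ^ 5 + 28 * x ^ 2 * z ^ 6 + 8 * x * z ^ 7 + z ^ 8) := by
      ring
    have e4 : 0 ≤ x ^ 8 + 28 * x ^ 6 * z ^ 2 + 56 * x ^ 5 * z ^ 3
        + 70 * x ^ 4 * z ^ 4 + 56 * x ^ 3 * z ^ 5 + 28 * x ^ 2 * z ^ 6 + 8 * x * z ^ 7 + z ^ 8 := by
      positivity
    linarith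
  exact le_of_pow_le_pow_left₀ (by norm_num) (by positivity) (h.trans (e1 ▸ e2))

/-- The combination of the three coordinates. -/
lemma four3 {X0 X1 X2 Z P : ℝ} (h0 : 0 ≤ X0) (h1 : 0 ≤ X1) (h2 : 0 ≤ X2) (hZ0 : 0 ≤ Z)
    (hP : 0 ≤ P) (hZ : Z ≤ 3 * (X0 + X1 + X2)) (k0 : X0 ^ 4 ≤ P) (k1 : X1 ^ 4 ≤ P)
    (k2 : X2 ^ 4 ≤ P) : Z ^ 4 ≤ 6561 * P := by
  obtain ⟨q, hq⟩ : ∃ q : ℝ, q = √(√P) := ⟨_, rfl⟩
  have hq0 : 0 ≤ q := by rw [hq]; positivity
  have hq4 : q ^ 4 = P := by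
    have : q ^ 4 = (q ^ 2) ^ 2 := by ring
    rw [this, hq, Real.sq_sqrt (Real.sqrt_nonneg _), Real.sq_sqrt hP]
  have l : ∀ X : ℝ, X ^ 4 ≤ P → X ≤ q := fun X k =>
    le_of_pow_le_pow_left₀ (n := 4) (by norm_num) hq0 (by rw [hq4]; exact k)
  have hZq : Z ≤ 9 * q := by linarith [l _ k0, l _ k1, l _ k2]
  calc Z ^ 4 ≤ (9 * q) ^ 4 := pow_le_pow_left₀ hZ0 hZq 4
    _ = 6561 * P := by rw [mul_pow, hq4]; norm_num

lemma wt_cont {γ : ℝ} (hγ : 0 < γ) : Continuous (wt γ) := by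
  unfold wt
  exact sg_cont.rpow_const fun _ => Or.inr hγ.le

lemma wt_nonneg (γ : ℝ) (x : V) : 0 ≤ wt γ x := Real.rpow_nonneg (sg_nonneg x) γ

/-- AXF-T1. -/
theorem t1f (hAlg : StmAlg) (hU : StmU) (hWi : StmWi) : StmT1F := by
  intro K c r h r1 h1 C₀ K₂ η hK hr1 hr hre hh1 hh hhle hC₀ hK₂ hη
  obtain ⟨Cw, hCw, hWi⟩ := hWi
  have hr0 : 0 < r := hr1.trans hr
  have hrle : r ≤ 1 := by
    have h3 : Real.exp (-2) ≤ 1 := Real.exp_le_one_iff.2 (by norm_num)
    nlinarith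
  obtain ⟨CU, hCU, hUC⟩ := hU K c r h r1 h1 hK hr1 hr hrle hh1 hh hhle
  obtain ⟨R, hR⟩ := Cy_bdd (c := c) (r := r) (h := h) hr0.le
  have hCym : MeasurableSet (Cy c r h) := (Cy_closed c r h).measurableSet
  have hCoCy : ∀ x ∈ Co c r h, x ∈ Cy c r h := fun x hx => ⟨hx.1.le, hx.2.le⟩
  have hCom : MeasurableSet (Co c r h) := by
    have o1 : IsOpen {x : V | sg x < r ^ 2} := isOpen_lt sg_cont continuous_const
    have o2 : IsOpen {x : V | |x 2 - c| < h} := isOpen_lt (by fun_prop) continuous_const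
    exact (o1.inter o2).measurableSet
  have hVf : volume (Cy c r h) < ⊤ :=
    (measure_mono hR).trans_lt measure_closedBall_lt_top
  obtain ⟨V0, hV0⟩ : ∃ V0 : ℝ, V0 = volume.real (Cy c r h) := ⟨_, rfl⟩
  have hV0n : 0 ≤ V0 := by
    rw [hV0]
    exact measureReal_nonneg
  obtain ⟨CE, hCE⟩ : ∃ CE : ℝ, CE = 6 * K ^ 4 + 2 * K ^ 5 := ⟨_, rfl⟩
  have hCEn : 0 ≤ CE := by rw [hCE]; positivity
  obtain ⟨D, hD⟩ : ∃ D : ℝ, D = 6561 * C₀ ^ 8 * K₂ ^ 4 * Cw * CU := ⟨_, rfl⟩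
  have hDn : 0 ≤ D := by rw [hD]; positivity
  obtain ⟨e, he⟩ : ∃ e : ℝ, e = η / 16 := ⟨_, rfl⟩
  have he0 : 0 < e := by rw [he]; positivity
  refine ⟨8 * e * CU + 8 * (D / (8 * e ^ 7)) + 2 * CE * V0, by positivity,
    fun v φ hv hax hdiv hcut hbd hc0 hc1 => ?_⟩
  obtain ⟨⟨sU, sW, sJ, sO⟩, -, -, halg⟩ := hAlg v hv hax
  obtain ⟨uH, uG, -, -⟩ := hUC v φ hv hax hdiv hcut hbd
  have hcirc : ∀ x, circ v x = sg x * WW v x := fun x => by
    obtain ⟨-, -, -, -, -, -, -, -, h4, -⟩ := halg x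
    exact h4
  have hrad : ∀ x, rad v x = sg x * UU v x := fun x => by
    obtain ⟨-, -, -, -, -, -, -, -, -, h4, -⟩ := halg x
    exact h4
  have sφ := hcut.sm
  have cφ := hcut.cs
  -- abbreviations
  obtain ⟨U, hUdef⟩ : ∃ U : V → ℝ, U = UU v := ⟨_, rfl⟩
  obtain ⟨W, hWdef⟩ : ∃ W : V → ℝ, W = WW v := ⟨_, rfl⟩
  obtain ⟨J, hJdef⟩ : ∃ J : V → ℝ, J = JJ v := ⟨_, rfl⟩
  obtain ⟨f, hfdef⟩ : ∃ f : V → ℝ, f = fun x => φ x * J x := ⟨_, rfl⟩
  obtain ⟨B, hBdef⟩ : ∃ B : V → ℝ, B = fun x => φ x * U x := ⟨_, rfl⟩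
  rw [← hUdef] at sU hrad uH uG
  rw [← hWdef] at sW hcirc
  rw [← hJdef] at sJ
  have sf : ContDiff ℝ ∞ f := by rw [hfdef]; exact sφ.mul sJ
  have cf : HasCompactSupport f := by rw [hfdef]; exact cφ.mul_right
  have sB : ContDiff ℝ ∞ B := by rw [hBdef]; exact sφ.mul sU
  have cB : HasCompactSupport B := by rw [hBdef]; exact cφ.mul_right
  have sφf : ContDiff ℝ ∞ (fun x => φ x * f x) := sφ.mul sf
  have cφf : HasCompactSupport (fun x => φ x * f x) := cφ.mul_right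
  have sW2 : ContDiff ℝ ∞ (fun x => W x * pd 2 U x) := sW.mul (sm_pd sU 2)
  have sWR : ContDiff ℝ ∞ (fun x => W x * RR U x) := sW.mul (sm_RR sU)
  have sG1 : ContDiff ℝ ∞ (fun x => (φ x * f x) * (W x * pd 2 U x)) := sφf.mul sW2
  have sG2 : ContDiff ℝ ∞ (fun x => (φ x * f x) * (W x * RR U x)) := sφf.mul sWR
  have cG1 : HasCompactSupport (fun x => (φ x * f x) * (W x * pd 2 U x)) := cφf.mul_right
  have cG2 : HasCompactSupport (fun x => (φ x * f x) * (W x * RR U x)) := cφf.mul_right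
  have ib1 := int_RR sG1 cG1
  have ib2 := int_pd sG2 cG2 2
  -- the remaining term
  obtain ⟨E, hE⟩ : ∃ E : V → ℝ, E = fun x => W x * U x * (RR f x * pd 2 φ x - pd 2 f x * RR φ x)
      + f x * (pd 2 φ x * W x * RR U x - RR φ x * W x * pd 2 U x) := ⟨_, rfl⟩
  obtain ⟨T, hT⟩ : ∃ T : V → ℝ, T = fun x => -(W x * (RR f x * pd 2 B x - pd 2 f x * RR B x))
      + E x := ⟨_, rfl⟩
  have hRB : ∀ x, RR B x = φ x * RR U x + U x * RR φ x := fun x => by
    rw [hBdef]
    exact RR_mul sφ sU x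
  have h2B : ∀ x, pd 2 B x = φ x * pd 2 U x + U x * pd 2 φ x := fun x => by
    rw [hBdef, pd_mul' sφ sU]
    ring
  have hid : ∀ x, φ x ^ 2 * JJ v x * SS v x
      = (2 * ((φ x * f x) * (W x * pd 2 U x))
        + RR (fun x => (φ x * f x) * (W x * pd 2 U x)) x)
        - pd 2 (fun x => (φ x * f x) * (W x * RR U x)) x + T x := by
    intro x
    rw [RR_mul sφf sW2, RR_mul sφ sf, RR_mul sW (sm_pd sU 2), pd_mul' sφf sWR, pd_mul' sφ sf,
      pd_mul' sW (sm_RR sU), pd2_RR sU, hT]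
    simp only []
    rw [hRB x, h2B x, hE]
    unfold SS
    rw [← hUdef, ← hWdef, ← hJdef, hfdef]
    ring
  have cG1c := sG1.continuous
  have iA : Integrable (fun x => (2 * ((φ x * f x) * (W x * pd 2 U x))
      + RR (fun x => (φ x * f x) * (W x * pd 2 U x)) x)) := by
    have j1 := cG1c.integrable_of_hasCompactSupport (μ := volume) cG1
    have cR : HasCompactSupport (RR (fun x => (φ x * f x) * (W x * pd 2 U x))) := by
      refine HasCompactSupport.intro cG1.isCompact fun x hx => ?_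
      unfold RR
      rw [pd_off hx, pd_off hx]
      ring
    have j2 := (sm_RR sG1).continuous.integrable_of_hasCompactSupport (μ := volume) cR
    exact (j1.const_mul 2).add j2
  have iB : Integrable (fun x => pd 2 (fun x => (φ x * f x) * (W x * RR U x)) x) :=
    (sm_pd sG2 2).continuous.integrable_of_hasCompactSupport (cs_pd cG2 2)
  have hφoff : ∀ x, x ∉ tsupport φ → φ x = 0 ∧ f x = 0 ∧ B x = 0 ∧ RR φ x = 0 ∧
      (∀ i, pd i φ x = 0) ∧ (∀ i, pd i f x = 0) ∧ (∀ i, pd i B x = 0) ∧ RR f x = 0 ∧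
      RR B x = 0 := by
    intro x hx
    have h2 : φ x = 0 := image_eq_zero_of_notMem_tsupport hx
    have hf : x ∉ tsupport f := fun hh => hx (by
      rw [hfdef] at hh
      exact tsupport_mul_subset_left hh)
    have hB : x ∉ tsupport B := fun hh => hx (by
      rw [hBdef] at hh
      exact tsupport_mul_subset_left hh)
    refine ⟨h2, by rw [hfdef]; simp [h2], by rw [hBdef]; simp [h2], ?_, fun i => pd_off hx i,
      fun i => pd_off hf i, fun i => pd_off hB i, ?_, ?_⟩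
    · unfold RR
      rw [pd_off hx, pd_off hx]
      ring
    · unfold RR
      rw [pd_off hf, pd_off hf]
      ring
    · unfold RR
      rw [pd_off hB, pd_off hB]
      ring
  have cT : Continuous T := by
    have c1 := sφ.continuous
    have c2 := sf.continuous
    have c3 := sW.continuous
    have c3' := sU.continuous
    have c4 := (sm_pd sU 2).continuous
    have c5 := (sm_RR sU).continuous
    have c6 := (sm_RR sf).continuous
    have c7 := (sm_pd sf 2).continuous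
    have c8 := (sm_pd sφ 2).continuous
    have c9 := (sm_RR sφ).continuous
    have c10 := (sm_RR sB).continuous
    have c11 := (sm_pd sB 2).continuous
    rw [hT, hE]
    fun_prop
  have sT : HasCompactSupport T := by
    refine HasCompactSupport.intro cφ.isCompact fun x hx => ?_
    obtain ⟨z1, z2, z3, z4, z5, z6, z7, z8, z9⟩ := hφoff x hx
    rw [hT, hE]
    simp only [z2, z4, z5, z6, z7, z8, z9]
    ring
  have iT : Integrable T := cT.integrable_of_hasCompactSupport sT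
  have hint : ∫ x, φ x ^ 2 * JJ v x * SS v x = ∫ x, T x := by
    rw [integral_congr_ae (Eventually.of_forall hid)]
    have e1 := integral_add (iA.sub iB) iT
    have e2 := integral_sub iA iB
    simp only [Pi.sub_apply] at e1 e2
    rw [e1, e2, ib1, ib2]
    ring
  -- pointwise facts
  have hgφ : ∀ x, x ∈ Cy c r1 h1 → ∀ i, pd i φ x = 0 := by
    intro x hx i
    apply pd_zero_of_max
    intro y
    rw [hcut.one x hx]
    exact hcut.le y
  have hOut : ∀ x ∈ Co c r h, x ∉ Cy c r1 h1 → x ∈ Out c r h r1 h1 := by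
    intro x hx hx2
    refine ⟨hCoCy x hx, ?_⟩
    by_contra hcon
    push Not at hcon
    exact hx2 ⟨hcon.1.le, hcon.2.le⟩
  have hφ1 : ∀ x, |φ x| ≤ 1 := by
    intro x
    rw [abs_of_nonneg (hcut.nn x)]
    exact hcut.le x
  have hsg1 : ∀ x ∈ Cy c r h, sg x ≤ 1 := by
    intro x hx
    have h3 : sg x ≤ r ^ 2 := hx.1
    nlinarith
  have hxi : ∀ x ∈ Cy c r h, |x 0| ≤ 1 ∧ |x 1| ≤ 1 := by
    intro x hx
    have h3 := hsg1 x hx
    unfold sg at h3
    constructor
    · apply abs_le_of_sq_le_sq _ zero_le_one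
      nlinarith [sq_nonneg (x 1)]
    · apply abs_le_of_sq_le_sq _ zero_le_one
      nlinarith [sq_nonneg (x 0)]
  have hRRb : ∀ x ∈ Cy c r h, ∀ g : V → ℝ, |pd 0 g x| ≤ K → |pd 1 g x| ≤ K →
      |RR g x| ≤ 2 * K := by
    intro x hx g g0 g1
    obtain ⟨k0, k1⟩ := hxi x hx
    unfold RR
    calc |x 0 * pd 0 g x + x 1 * pd 1 g x| ≤ |x 0| * |pd 0 g x| + |x 1| * |pd 1 g x| := by
          rw [← abs_mul, ← abs_mul]
          exact abs_add_le _ _
      _ ≤ 1 * K + 1 * K := by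
          apply add_le_add
          · exact mul_le_mul k0 g0 (abs_nonneg _) zero_le_one
          · exact mul_le_mul k1 g1 (abs_nonneg _) zero_le_one
      _ = 2 * K := by ring
  -- the terms with derivatives of the cut-off function
  have hEb : ∀ x, |E x| ≤ CE * (Cy c r h).indicator (fun _ => (1 : ℝ)) x := by
    intro x
    have hind : 0 ≤ (Cy c r h).indicator (fun _ => (1 : ℝ)) x :=
      indicator_nonneg (fun _ _ => zero_le_one) x
    by_cases hxs : x ∈ tsupport φ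
    swap
    · obtain ⟨z1, z2, z3, z4, z5, z6, z7, z8, z9⟩ := hφoff x hxs
      rw [hE]
      simp only [z2, z4, z5, z6]
      simp only [mul_zero, zero_mul, sub_zero, add_zero, abs_zero]
      positivity
    have hx := hcut.supp hxs
    rw [indicator_of_mem (hCoCy x hx), mul_one]
    by_cases hx2 : x ∈ Cy c r1 h1
    · have e0 := hgφ x hx2 0
      have e1 := hgφ x hx2 1
      have e2 := hgφ x hx2 2
      have e3 : RR φ x = 0 := by
        unfold RR
        rw [e0, e1]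
        ring
      rw [hE]
      simp only [e3, e2, mul_zero, zero_mul, sub_zero, add_zero, abs_zero]
      exact hCEn
    · obtain ⟨-, bU, bW, bJ, -, bd⟩ := hbd x (hOut x hx hx2)
      rw [← hUdef] at bU
      rw [← hWdef] at bW
      rw [← hJdef] at bJ
      have bd0 := (bd 0).1
      have bd1 := (bd 1).1
      have bd2 := (bd 2).1
      rw [← hUdef] at bd0 bd1 bd2
      have bj0 := (bd 0).2.2.1
      have bj1 := (bd 1).2.2.1
      have bj2 := (bd 2).2.2.1
      rw [← hJdef] at bj0 bj1 bj2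
      obtain ⟨bφ, -, bR⟩ := hcut.bd x
      have bφ2 := bφ 2
      have bf : |f x| ≤ K := by
        rw [hfdef]
        show |φ x * J x| ≤ K
        rw [abs_mul]
        calc |φ x| * |J x| ≤ 1 * K := mul_le_mul (hφ1 x) bJ (abs_nonneg _) zero_le_one
          _ = K := one_mul K
      have bR' : |RR φ x| ≤ K := bR.trans (by
        have := hsg1 x (hCoCy x hx)
        nlinarith)
      have bRU : |RR U x| ≤ 2 * K := hRRb x (hCoCy x hx) U bd0 bd1
      have bRJ : |RR J x| ≤ 2 * K := hRRb x (hCoCy x hx) J bj0 bj1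
      have bRf : |RR f x| ≤ 2 * K + K * K := by
        rw [hfdef, RR_mul sφ sJ]
        refine (abs_add_le _ _).trans ?_
        rw [abs_mul, abs_mul]
        apply add_le_add
        · calc |φ x| * |RR J x| ≤ 1 * (2 * K) := mul_le_mul (hφ1 x) bRJ (abs_nonneg _) zero_le_one
            _ = 2 * K := one_mul _
        · exact mul_le_mul bJ bR' (abs_nonneg _) hK
      have b2f : |pd 2 f x| ≤ K + K * K := by
        rw [hfdef, pd_mul' sφ sJ]
        refine (abs_add_le _ _).trans ?_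
        rw [abs_mul, abs_mul]
        apply add_le_add
        · calc |φ x| * |pd 2 J x| ≤ 1 * K := mul_le_mul (hφ1 x) bj2 (abs_nonneg _) zero_le_one
            _ = K := one_mul _
        · exact mul_le_mul bφ2 bJ (abs_nonneg _) hK
      have tri : ∀ a b : ℝ, |a - b| ≤ |a| + |b| := fun a b => abs_sub a b
      rw [hE, hCE]
      simp only []
      calc _ ≤ |W x * U x * (RR f x * pd 2 φ x - pd 2 f x * RR φ x)|
            + |f x * (pd 2 φ x * W x * RR U x - RR φ x * W x * pd 2 U x)| := abs_add_le _ _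
        _ = |W x| * |U x| * |RR f x * pd 2 φ x - pd 2 f x * RR φ x|
            + |f x| * |pd 2 φ x * W x * RR U x - RR φ x * W x * pd 2 U x| := by
            simp only [abs_mul]
        _ ≤ |W x| * |U x| * (|RR f x * pd 2 φ x| + |pd 2 f x * RR φ x|)
            + |f x| * (|pd 2 φ x * W x * RR U x| + |RR φ x * W x * pd 2 U x|) := by
            gcongr
            · exact tri _ _
            · exact tri _ _
        _ = |W x| * |U x| * (|RR f x| * |pd 2 φ x| + |pd 2 f x| * |RR φ x|)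
            + |f x| * (|pd 2 φ x| * |W x| * |RR U x| + |RR φ x| * |W x| * |pd 2 U x|) := by
            simp only [abs_mul]
        _ ≤ K * K * ((2 * K + K * K) * K + (K + K * K) * K)
            + K * (K * K * (2 * K) + K * K * K) := by
            gcongr
        _ = 6 * K ^ 4 + 2 * K ^ 5 := by ring
  -- the main estimate
  obtain ⟨w, hw⟩ : ∃ w : V → ℝ, w = fun x => sg x * W x ^ 2 * gr2 B x := ⟨_, rfl⟩
  have cw : Continuous w := by
    have c1 := sg_cont
    have c2 := sW.continuous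
    have c3 := sm_gr2 sB
    rw [hw]
    fun_prop
  have kw : HasCompactSupport w := by
    refine HasCompactSupport.intro cφ.isCompact fun x hx => ?_
    obtain ⟨z1, z2, z3, z4, z5, z6, z7, z8, z9⟩ := hφoff x hx
    rw [hw]
    unfold gr2
    simp [z7]
  have iw : Integrable w := cw.integrable_of_hasCompactSupport kw
  have igf : Integrable (gr2 f) := (sm_gr2 sf).integrable_of_hasCompactSupport (cs_gr2 cf)
  have igB : Integrable (gr2 B) := (sm_gr2 sB).integrable_of_hasCompactSupport (cs_gr2 cB)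
  have iCy : Integrable ((Cy c r h).indicator (fun _ : V => (1 : ℝ))) := by
    rw [integrable_indicator_iff hCym]
    exact integrableOn_const hVf.ne
  have hTb : ∀ x, |2 * T x| ≤ 1 / 8 * gr2 f x + 8 * w x
      + 2 * CE * (Cy c r h).indicator (fun _ => (1 : ℝ)) x := by
    intro x
    have p1 := pt_main (w := W x) (a2 := pd 2 f x) (b2 := pd 2 B x) (sg_nonneg x) (RR_sq f x)
      (RR_sq B x)
    have e1 : gr2 f x = pd 0 f x ^ 2 + pd 1 f x ^ 2 + pd 2 f x ^ 2 := by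
      unfold gr2
      rw [Fin.sum_univ_three]
    have e2 : gr2 B x = pd 0 B x ^ 2 + pd 1 B x ^ 2 + pd 2 B x ^ 2 := by
      unfold gr2
      rw [Fin.sum_univ_three]
    rw [← e1, ← e2] at p1
    have p2 := hEb x
    have p3 : |T x| ≤ |W x * (RR f x * pd 2 B x - pd 2 f x * RR B x)| + |E x| := by
      rw [hT]
      refine (abs_add_le _ _).trans ?_
      rw [abs_neg]
    rw [abs_mul, abs_two, hw]
    simp only []
    linarith
  have hfin : 2 * |∫ x, T x| ≤ 1 / 8 * GD f + 8 * (∫ x, w x) + 2 * CE * V0 := by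
    have e0 : 2 * |∫ x, T x| = |∫ x, 2 * T x| := by
      rw [integral_const_mul, abs_mul, abs_two]
    rw [e0]
    refine abs_integral_le_integral_abs.trans ?_
    have j1 := (igf.const_mul (1 / 8)).add (iw.const_mul 8)
    refine (integral_mono (iT.const_mul 2).abs (j1.add (iCy.const_mul (2 * CE)))
      (fun x => hTb x)).trans (le_of_eq ?_)
    have e1 := integral_add j1 (iCy.const_mul (2 * CE))
    have e3 := integral_add (igf.const_mul (1 / 8)) (iw.const_mul 8)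
    simp only [Pi.add_apply] at e1 e3 ⊢
    rw [e1, e3, integral_const_mul, integral_const_mul, integral_const_mul,
      integral_indicator hCym]
    have e5 : ∫ x in Cy c r h, (1 : ℝ) = V0 := by
      rw [hV0]
      simp [Measure.real]
    rw [e5]
    rfl
  -- the bound of the integral of w
  have hBs : ∀ x ∈ tsupport B, sg x ≤ Real.exp (-2) := by
    intro x hx
    have h3 : x ∈ tsupport φ := by
      rw [hBdef] at hx
      exact tsupport_mul_subset_left hx
    exact (hcut.supp h3).1.le.trans hre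
  have e0 : ∀ᵐ x : V, x 0 ≠ 0 := Measure.ae_eval_ne (μ := fun _ => volume) 0 0
  have hg0 : (0 : ℝ) < g0 := by unfold g0; norm_num
  -- the three functions
  have hi : ∀ i : Fin 3, Integrable (fun x => (wt g0 x)⁻¹ * pd i B x ^ 4) ∧
      (∫ x, (wt g0 x)⁻¹ * pd i B x ^ 4) ^ 4 ≤ Cw * GD B * HD B ^ 7 := by
    intro i
    obtain ⟨k1, k2⟩ := hWi (pd i B) (sm_pd sB i) (cs_pd cB i) fun x hx => by
      apply hBs
      by_contra hcon
      exact hx (pd_off hcon i)
    refine ⟨k1, k2.trans ?_⟩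
    have ipd : ∀ g : V → ℝ, ContDiff ℝ ∞ g → HasCompactSupport g → Integrable (fun x => g x ^ 2) := by
      intro g sg' cg
      refine (sg'.continuous.pow 2).integrable_of_hasCompactSupport ?_
      refine HasCompactSupport.intro cg.isCompact fun x hx => ?_
      show g x ^ 2 = 0
      rw [image_eq_zero_of_notMem_tsupport hx]
      norm_num
    have q1 : ∫ x, pd i B x ^ 2 ≤ GD B := by
      unfold GD
      refine integral_mono (ipd _ (sm_pd sB i) (cs_pd cB i)) igB fun x => ?_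
      exact Finset.single_le_sum (f := fun j => pd j B x ^ 2) (fun j _ => sq_nonneg _)
        (Finset.mem_univ i)
    have q2 : GD (pd i B) ≤ HD B := by
      unfold GD HD
      refine integral_mono ((sm_gr2 (sm_pd sB i)).integrable_of_hasCompactSupport
        (cs_gr2 (cs_pd cB i))) ?_ fun x => ?_
      · have : ∀ a b : Fin 3, Integrable (fun x => pd a (pd b B) x ^ 2) := fun a b =>
          ipd _ (sm_pd (sm_pd sB b) a) (cs_pd (cs_pd cB b) a)
        unfold hs2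
        exact integrable_finsetSum _ fun a _ => integrable_finsetSum _ fun b _ => this a b
      · unfold gr2 hs2
        exact Finset.sum_le_sum fun a _ => Finset.single_le_sum
          (f := fun b => pd a (pd b B) x ^ 2) (fun j _ => sq_nonneg _) (Finset.mem_univ i)
    have n0 : 0 ≤ GD (pd i B) := integral_nonneg fun x => gr2_nonneg _ _
    have n1 : 0 ≤ GD B := integral_nonneg fun x => gr2_nonneg _ _
    have q3 : GD (pd i B) ^ 7 ≤ HD B ^ 7 := pow_le_pow_left₀ n0 q2 7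
    exact mul_le_mul (mul_le_mul_of_nonneg_left q1 hCw.le) q3 (by positivity) (by positivity)
  obtain ⟨i0, p0⟩ := hi 0
  obtain ⟨i1, p1⟩ := hi 1
  obtain ⟨i2, p2⟩ := hi 2
  have hgle : ∀ x, (wt g0 x)⁻¹ * gr2 B x ^ 2 ≤ 3 * ((wt g0 x)⁻¹ * pd 0 B x ^ 4
      + (wt g0 x)⁻¹ * pd 1 B x ^ 4 + (wt g0 x)⁻¹ * pd 2 B x ^ 4) := by
    intro x
    have hw0 : 0 ≤ (wt g0 x)⁻¹ := inv_nonneg.2 (wt_nonneg _ _)
    have e1 : gr2 B x = pd 0 B x ^ 2 + pd 1 B x ^ 2 + pd 2 B x ^ 2 := by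
      unfold gr2
      rw [Fin.sum_univ_three]
    rw [e1]
    have : (pd 0 B x ^ 2 + pd 1 B x ^ 2 + pd 2 B x ^ 2) ^ 2 ≤
        3 * (pd 0 B x ^ 4 + pd 1 B x ^ 4 + pd 2 B x ^ 4) := by
      nlinarith [sq_nonneg (pd 0 B x ^ 2 - pd 1 B x ^ 2), sq_nonneg (pd 0 B x ^ 2 - pd 2 B x ^ 2),
        sq_nonneg (pd 1 B x ^ 2 - pd 2 B x ^ 2)]
    have := mul_le_mul_of_nonneg_left this hw0
    linarith
  have mwt : Measurable (fun x : V => (wt g0 x)⁻¹) := (wt_cont hg0).measurable.inv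
  have cgB : Continuous (gr2 B) := sm_gr2 sB
  have iZ : Integrable (fun x => (wt g0 x)⁻¹ * gr2 B x ^ 2) := by
    refine (((i0.add i1).add i2).const_mul 3).mono'
      ((mwt.mul (cgB.pow 2).measurable).aestronglyMeasurable) (Eventually.of_forall fun x => ?_)
    rw [Real.norm_of_nonneg (mul_nonneg (inv_nonneg.2 (wt_nonneg _ _)) (sq_nonneg _))]
    exact hgle x
  obtain ⟨Z, hZ⟩ : ∃ Z : ℝ, Z = ∫ x, (wt g0 x)⁻¹ * gr2 B x ^ 2 := ⟨_, rfl⟩
  have nn : ∀ g : V → ℝ, (∀ x, 0 ≤ g x) → 0 ≤ ∫ x, (wt g0 x)⁻¹ * g x := fun g hg =>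
    integral_nonneg fun x => mul_nonneg (inv_nonneg.2 (wt_nonneg _ _)) (hg x)
  have hZ0 : 0 ≤ Z := by
    rw [hZ]
    exact nn _ fun x => sq_nonneg _
  have hZle : Z ≤ 3 * ((∫ x, (wt g0 x)⁻¹ * pd 0 B x ^ 4) + (∫ x, (wt g0 x)⁻¹ * pd 1 B x ^ 4)
      + ∫ x, (wt g0 x)⁻¹ * pd 2 B x ^ 4) := by
    rw [hZ]
    refine (integral_mono iZ (((i0.add i1).add i2).const_mul 3) hgle).trans (le_of_eq ?_)
    have s1 := integral_add (i0.add i1) i2
    have s2 := integral_add i0 i1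
    simp only [Pi.add_apply] at s1 s2 ⊢
    rw [integral_const_mul, s1, s2]
  have hGB0 : 0 ≤ GD B := integral_nonneg fun x => gr2_nonneg _ _
  have hHB0 : 0 ≤ HD B := integral_nonneg fun x => hs2_nonneg _ _
  have hZ4 : Z ^ 4 ≤ 6561 * (Cw * GD B * HD B ^ 7) :=
    four3 (nn _ fun x => by positivity) (nn _ fun x => by positivity)
      (nn _ fun x => by positivity) hZ0 (by positivity) hZle p0 p1 p2
  -- Cauchy-Schwarz
  obtain ⟨F, hF⟩ : ∃ F : V → ℝ, F = (Co c r h).indicator (fun x => √(wt g0 x) * |W x|) := ⟨_, rfl⟩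
  obtain ⟨Gg, hGg⟩ : ∃ G : V → ℝ, G = fun x => √((wt g0 x)⁻¹) * gr2 B x := ⟨_, rfl⟩
  have cF : Continuous (fun x => √(wt g0 x) * |W x|) :=
    ((wt_cont hg0).sqrt).mul sW.continuous.abs
  have F0 : ∀ x, 0 ≤ F x := by
    intro x
    rw [hF]
    exact indicator_nonneg (fun y _ => by positivity) x
  have G0 : ∀ x, 0 ≤ Gg x := by
    intro x
    rw [hGg]
    exact mul_nonneg (Real.sqrt_nonneg _) (gr2_nonneg _ _)
  have mF : AEStronglyMeasurable F volume := by
    rw [hF]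
    exact (cF.measurable.indicator hCom).aestronglyMeasurable
  have mG : AEStronglyMeasurable Gg volume := by
    rw [hGg]
    exact ((mwt.sqrt).mul cgB.measurable).aestronglyMeasurable
  have eF : (fun x => F x ^ 2) = (Co c r h).indicator (fun x => wt g0 x * W x ^ 2) := by
    funext x
    rw [hF]
    by_cases hx : x ∈ Co c r h
    · rw [indicator_of_mem hx, indicator_of_mem hx, mul_pow, Real.sq_sqrt (wt_nonneg _ _), sq_abs]
    · rw [indicator_of_notMem hx, indicator_of_notMem hx]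
      norm_num
  have eG : (fun x => Gg x ^ 2) = fun x => (wt g0 x)⁻¹ * gr2 B x ^ 2 := by
    funext x
    rw [hGg]
    show (√((wt g0 x)⁻¹) * gr2 B x) ^ 2 = _
    rw [mul_pow, Real.sq_sqrt (inv_nonneg.2 (wt_nonneg _ _))]
  have iF2 : Integrable (fun x => F x ^ 2) := by
    rw [eF, integrable_indicator_iff hCom]
    have cc : Continuous (fun x => wt g0 x * W x ^ 2) := (wt_cont hg0).mul (sW.continuous.pow 2)
    exact (cc.continuousOn.integrableOn_compact (isCompact_closedBall (0 : V) R)).mono_set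
      fun x hx => hR (hCoCy x hx)
  have iG2 : Integrable (fun x => Gg x ^ 2) := by
    rw [eG]
    exact iZ
  have hcs := cs_real F0 G0 mF mG iF2 iG2
  rw [eF, eG, integral_indicator hCom, ← hZ] at hcs
  have hFG : ∀ᵐ x : V, F x * Gg x = |W x| * gr2 B x := by
    filter_upwards [e0] with x hx0
    have hsx : 0 < sg x := by
      unfold sg
      positivity
    have hw1 : 0 < wt g0 x := Real.rpow_pos_of_pos hsx _
    rw [hF, hGg]
    by_cases hxs : x ∈ tsupport φ
    · rw [indicator_of_mem (hcut.supp hxs)]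
      have : √(wt g0 x) * √((wt g0 x)⁻¹) = 1 := by
        rw [← Real.sqrt_mul hw1.le, mul_inv_cancel₀ hw1.ne', Real.sqrt_one]
      calc √(wt g0 x) * |W x| * (√((wt g0 x)⁻¹) * gr2 B x)
          = (√(wt g0 x) * √((wt g0 x)⁻¹)) * (|W x| * gr2 B x) := by ring
        _ = _ := by rw [this, one_mul]
    · obtain ⟨z1, z2, z3, z4, z5, z6, z7, z8, z9⟩ := hφoff x hxs
      have g0' : gr2 B x = 0 := by
        unfold gr2
        simp [z7]
      simp [g0']
  rw [integral_congr_ae hFG] at hcs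
  have iWg : Integrable (fun x => |W x| * gr2 B x) := by
    refine (sW.continuous.abs.mul cgB).integrable_of_hasCompactSupport ?_
    exact (cs_gr2 cB).mul_left
  have hyle : ∫ x, w x ≤ C₀ * ∫ x, |W x| * gr2 B x := by
    rw [← integral_const_mul]
    refine integral_mono iw (iWg.const_mul C₀) fun x => ?_
    rw [hw]
    show sg x * W x ^ 2 * gr2 B x ≤ C₀ * (|W x| * gr2 B x)
    by_cases hxs : x ∈ tsupport φ
    · have h5 := hc0 x (hcut.supp hxs)
      rw [hcirc x, abs_mul, abs_of_nonneg (sg_nonneg x)] at h5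
      have h6 := mul_le_mul_of_nonneg_right h5 (abs_nonneg (W x))
      have h7 : sg x * W x ^ 2 ≤ C₀ * |W x| := by
        calc sg x * W x ^ 2 = sg x * |W x| * |W x| := by rw [← sq_abs]; ring
          _ ≤ _ := h6
      calc _ ≤ C₀ * |W x| * gr2 B x := mul_le_mul_of_nonneg_right h7 (gr2_nonneg _ _)
        _ = _ := by ring
    · obtain ⟨z1, z2, z3, z4, z5, z6, z7, z8, z9⟩ := hφoff x hxs
      have g0' : gr2 B x = 0 := by
        unfold gr2
        simp [z7]
      rw [g0', mul_zero, mul_zero, mul_zero]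
  obtain ⟨Y, hY⟩ : ∃ Y : ℝ, Y = ∫ x, |W x| * gr2 B x := ⟨_, rfl⟩
  rw [← hY] at hyle hcs
  have hY0 : 0 ≤ Y := by
    rw [hY]
    exact integral_nonneg fun x => mul_nonneg (abs_nonneg _) (gr2_nonneg _ _)
  have hc1' : ∫ x in Co c r h, wt g0 x * W x ^ 2 ≤ K₂ := by
    rw [hWdef]
    exact hc1
  have hY2 : Y ^ 2 ≤ K₂ * Z := hcs.trans (mul_le_mul_of_nonneg_right hc1' hZ0)
  -- the end
  have hJ' : (fun x => φ x * JJ v x) = f := by rw [hfdef, hJdef]
  have hB' : (fun x => φ x * U x) = B := hBdef.symm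
  rw [hJ', hint]
  rw [hB'] at uH uG
  obtain ⟨G, hG⟩ : ∃ G : ℝ, G = GD (fun x => φ x * OO v x) := ⟨_, rfl⟩
  obtain ⟨O2, hO2⟩ : ∃ O2 : ℝ, O2 = ∫ x, φ x ^ 2 * OO v x ^ 2 := ⟨_, rfl⟩
  rw [← hG] at uH
  rw [← hO2] at uG
  rw [← hG, ← hO2]
  have hG0 : 0 ≤ G := by
    rw [hG]
    exact integral_nonneg fun x => gr2_nonneg _ _
  have hO0 : 0 ≤ O2 := by
    rw [hO2]
    exact integral_nonneg fun x => by positivity
  have h8 : (C₀ * Y) ^ 8 ≤ D * (1 + O2) * (2 * G + CU) ^ 7 := by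
    have b1 : (Y ^ 2) ^ 4 ≤ (K₂ * Z) ^ 4 := pow_le_pow_left₀ (sq_nonneg _) hY2 4
    have b2 : GD B * HD B ^ 7 ≤ CU * (1 + O2) * (2 * G + CU) ^ 7 :=
      mul_le_mul uG (pow_le_pow_left₀ hHB0 uH 7) (by positivity) (by positivity)
    calc (C₀ * Y) ^ 8 = C₀ ^ 8 * (Y ^ 2) ^ 4 := by ring
      _ ≤ C₀ ^ 8 * (K₂ * Z) ^ 4 := mul_le_mul_of_nonneg_left b1 (by positivity)
      _ = C₀ ^ 8 * K₂ ^ 4 * Z ^ 4 := by ring
      _ ≤ C₀ ^ 8 * K₂ ^ 4 * (6561 * (Cw * GD B * HD B ^ 7)) :=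
          mul_le_mul_of_nonneg_left hZ4 (by positivity)
      _ = 6561 * C₀ ^ 8 * K₂ ^ 4 * Cw * (GD B * HD B ^ 7) := by ring
      _ ≤ 6561 * C₀ ^ 8 * K₂ ^ 4 * Cw * (CU * (1 + O2) * (2 * G + CU) ^ 7) :=
          mul_le_mul_of_nonneg_left b2 (by positivity)
      _ = D * (1 + O2) * (2 * G + CU) ^ 7 := by rw [hD]; ring
  have h9 := young8 (by positivity : 0 ≤ 1 + O2) (by positivity : 0 ≤ 2 * G + CU) hDn he0 h8
  obtain ⟨D', hD'⟩ : ∃ D' : ℝ, D' = D / (8 * e ^ 7) := ⟨_, rfl⟩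
  rw [← hD'] at h9 ⊢
  have hD0' : 0 ≤ D' := by rw [hD']; positivity
  have he' : η = 16 * e := by rw [he]; ring
  rw [he']
  have g1 : 0 ≤ e * CU * O2 := by positivity
  have g2 : 0 ≤ CE * V0 * O2 := by positivity
  nlinarith [hfin, hyle, h9, g1, g2]

end Pool.Agent.D0H65.AXF
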